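import Pool.Agent.W945.Lc.Stm

/-! Subtask LC-NUMC. -/

set_option autoImplicit false

namespace Pool.Agent.W686.Lc.NUMC

open Pool.Agent.W945.Pw Pool.Agent.W945.Lc

theorem one_le_y : (1 : ℝ) ≤ y := by
  unfold y
  have : (0 : ℝ) ≤ 1 / 10 ^ 8 := by positivity
  linarith

theorem two_le (N : ℕ) (hN : 0 < N) (z : ℝ) (hz : z = 1 + 1 / (N : ℝ)) : (2 : ℝ) ≤ z ^ N := by
  have h1 : (1 : ℝ) + (N : ℝ) * (1 / (N : ℝ)) ≤ (1 + 1 / (N : ℝ)) ^ N := by
    apply one_add_mul_le_pow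
    have : (0 : ℝ) ≤ 1 / (N : ℝ) := by positivity
    linarith
  have h2 : (N : ℝ) * (1 / (N : ℝ)) = 1 := by
    have : (N : ℝ) ≠ 0 := by positivity
    field_simp
  rw [h2] at h1
  rw [hz]
  linarith

theorem clog_bound (m : ℕ) (hm : 5 * 10 ^ 8 ≤ m) : 200 * (Nat.clog 2 m + 4) ≤ m := by
  have hm' : 500000000 ≤ m := by norm_num at hm; exact hm
  obtain ⟨t, ht⟩ : ∃ t, t = m / 200 - 4 := ⟨_, rfl⟩
  have h1 : m < 200 * (t + 5) := by omega
  have h2 : 200 * (t + 4) ≤ m := by omega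
  have h3 : 2000000 ≤ t := by omega
  have h4 : m ≤ 2 ^ t := by
    obtain ⟨a, b, hab, ha, hb⟩ : ∃ a b : ℕ, t = a + b ∧ 1000000 ≤ a ∧ 2 * b ≥ t :=
      ⟨t / 2, t - t / 2, by omega, by omega, by omega⟩
    have h5 : a < 2 ^ a := Nat.lt_two_pow_self
    have h6 : b < 2 ^ b := Nat.lt_two_pow_self
    have h7 : a * b ≤ 2 ^ a * 2 ^ b := Nat.mul_le_mul h5.le h6.le
    have h8 : 1000000 * b ≤ a * b := Nat.mul_le_mul_right b ha
    rw [hab, pow_add]
    have h9 : m ≤ 1000000 * b := by omega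
    exact h9.trans (h8.trans h7)
  have h5 : Nat.clog 2 m ≤ t := Nat.clog_le_of_le_pow h4
  omega

theorem main : NUMC.Stm := by
  intro m hm
  have hm' : 500000000 ≤ m := by norm_num at hm; exact hm
  obtain ⟨K, hK⟩ : ∃ K, K = 93 * m / 200 := ⟨_, rfl⟩
  obtain ⟨c, hc⟩ : ∃ c, c = Nat.clog 2 m := ⟨_, rfl⟩
  have hcb := clog_bound m hm
  rw [← hc] at hcb
  rw [← hK, ← hc]
  have hmc : m ≤ 2 ^ c := by rw [hc]; exact Nat.le_pow_clog (by norm_num) m
  constructor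
  · have h1 : (2 : ℝ) ^ K * ((m : ℝ) / ((2 ^ (K + c + 4) : ℕ) : ℝ)) ≤ 1 / 16 := by
      have hmc' : (m : ℝ) ≤ 2 ^ c := by exact_mod_cast hmc
      have e1 : ((2 ^ (K + c + 4) : ℕ) : ℝ) = 2 ^ K * (2 ^ c * 16) := by
        push_cast
        rw [pow_add, pow_add]
        norm_num
        ring
      rw [e1, ← mul_div_assoc, mul_div_mul_left _ _ (by positivity), div_le_iff₀ (by positivity)]
      linarith
    have h2 : y ^ (92 * (m + 0 + 3)) / (y ^ 200) ^ (K + 1) ≤ 1 / 16 := by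
      have hy0 : (0 : ℝ) < y := lt_of_lt_of_le one_pos one_le_y
      have key : (2 : ℝ) ≤ y ^ 100000000 := by
        apply two_le 100000000 (by norm_num)
        unfold y
        norm_num
      obtain ⟨N, hN⟩ : ∃ N, N = 100000000 := ⟨_, rfl⟩
      rw [← hN] at key
      have h3 : (16 : ℝ) ≤ y ^ (N * 4) := by
        rw [pow_mul]
        calc (16 : ℝ) = 2 ^ 4 := by norm_num
          _ ≤ (y ^ N) ^ 4 := pow_le_pow_left₀ (by norm_num) key 4
      have h4 : 92 * (m + 0 + 3) + N * 4 ≤ 200 * (K + 1) := by omega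
      have h5 : y ^ (92 * (m + 0 + 3)) * y ^ (N * 4) ≤ y ^ (200 * (K + 1)) := by
        rw [← pow_add]
        exact pow_le_pow_right₀ one_le_y h4
      rw [← pow_mul, div_le_iff₀ (by positivity)]
      have h6 : 0 < y ^ (92 * (m + 0 + 3)) := by positivity
      nlinarith [mul_le_mul_of_nonneg_left h3 h6.le]
    linarith
  · omega

end Pool.Agent.W686.Lc.NUMC
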